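import Pool.Agent.W844.DO.Defs

/-!
# DO-VOL: Volterra equation of the second kind with continuous data
-/

set_option autoImplicit false

open MeasureTheory Filter Topology Set
open scoped ENNReal NNReal

namespace Pool.Agent.W923.DO

open Pool.Agent.W844.DO

lemma cv_cont {k f : ℝ → ℝ} (hk : Integrable k) (hf : Continuous f) {M : ℝ}
    (hM : ∀ x, |f x| ≤ M) : Continuous (cv k f) := by
  unfold cv
  refine continuous_of_dominated (bound := fun y => |k y| * M) ?_ ?_ ?_ ?_
  · intro x
    exact hk.aestronglyMeasurable.mul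
      ((hf.comp (continuous_const.sub continuous_id)).aestronglyMeasurable)
  · intro x
    refine Eventually.of_forall fun y => ?_
    rw [norm_mul, Real.norm_eq_abs, Real.norm_eq_abs]
    exact mul_le_mul_of_nonneg_left (hM _) (abs_nonneg _)
  · exact hk.abs.mul_const M
  · refine Eventually.of_forall fun y => ?_
    exact continuous_const.mul (hf.comp (continuous_id.sub continuous_const))

lemma cv_int {k f : ℝ → ℝ} (hk : Integrable k) (hf : Continuous f) {M : ℝ}
    (hM : ∀ x, |f x| ≤ M) (x : ℝ) : Integrable fun y => k y * f (x - y) := by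
  refine (hk.abs.mul_const M).mono' (hk.aestronglyMeasurable.mul
      ((hf.comp (continuous_const.sub continuous_id)).aestronglyMeasurable)) ?_
  refine Eventually.of_forall fun y => ?_
  rw [norm_mul, Real.norm_eq_abs, Real.norm_eq_abs]
  exact mul_le_mul_of_nonneg_left (hM _) (abs_nonneg _)

lemma cv_bound {k f : ℝ → ℝ} (hk : Integrable k) {M : ℝ} (x : ℝ)
    (hM : ∀ y, |k y| * |f (x - y)| ≤ |k y| * M) :
    |∫ y, k y * f (x - y)| ≤ (∫ y, |k y|) * M := by
  rw [← integral_mul_const]
  have hb := norm_integral_le_of_norm_le (f := fun y => k y * f (x - y)) (hk.abs.mul_const M) ?_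
  · simpa only [Real.norm_eq_abs] using hb
  refine Eventually.of_forall fun y => ?_
  rw [norm_mul, Real.norm_eq_abs, Real.norm_eq_abs]
  exact hM y

/-- the Volterra equation for an integrable kernel with mass at most one half -/
lemma small {e k : ℝ → ℝ} (he : Continuous e) (hk : Integrable k) (hec : Csl e) (hkc : Csl k)
    {A : ℝ} (heA : ∀ x, |e x| ≤ A) (hk2 : ∫ y, |k y| ≤ 1 / 2) :
    ∃ (f : ℝ → ℝ) (M : ℝ), Continuous f ∧ Csl f ∧ (∀ x, |f x| ≤ M) ∧
      ∀ x, f x = e x + ∫ y, k y * f (x - y) := by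
  classical
  have hb : ∀ (f : BoundedContinuousFunction ℝ ℝ) (x : ℝ), |f x| ≤ ‖f‖ := fun f x =>
    f.norm_coe_le_norm x
  let T : BoundedContinuousFunction ℝ ℝ → BoundedContinuousFunction ℝ ℝ := fun f =>
    BoundedContinuousFunction.ofNormedAddCommGroup (fun x => e x + ∫ y, k y * f (x - y))
      (he.add (cv_cont hk f.continuous (hb f))) (A + 1 / 2 * ‖f‖) (by
        intro x
        refine (norm_add_le _ _).trans (add_le_add (heA x) ?_)
        refine (cv_bound hk x (M := ‖f‖) (fun y => mul_le_mul_of_nonneg_left (hb f _)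
          (abs_nonneg _))).trans ?_
        exact mul_le_mul_of_nonneg_right hk2 (norm_nonneg _))
  have hT : ContractingWith (1 / 2 : ℝ≥0) T := by
    refine ⟨by norm_num, LipschitzWith.of_dist_le_mul fun f g => ?_⟩
    rw [BoundedContinuousFunction.dist_le (by positivity)]
    intro x
    have h1 : T f x - T g x = ∫ y, k y * (f - g) (x - y) := by
      have : T f x - T g x = (∫ y, k y * f (x - y)) - ∫ y, k y * g (x - y) := by
        show (e x + ∫ y, k y * f (x - y)) - (e x + ∫ y, k y * g (x - y)) = _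
        ring
      rw [this, ← integral_sub (cv_int hk f.continuous (hb f) x) (cv_int hk g.continuous (hb g) x)]
      refine integral_congr_ae (Eventually.of_forall fun y => ?_)
      simp only [BoundedContinuousFunction.coe_sub, Pi.sub_apply]
      ring
    rw [Real.dist_eq, h1, dist_eq_norm]
    refine (cv_bound hk x (M := ‖f - g‖) (fun y => mul_le_mul_of_nonneg_left (hb (f - g) _)
      (abs_nonneg _))).trans ?_
    have : ((1 / 2 : ℝ≥0) : ℝ) = 1 / 2 := by norm_num
    rw [this]
    exact mul_le_mul_of_nonneg_right hk2 (norm_nonneg _)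
  obtain ⟨f, hf⟩ : ∃ f, T f = f := ⟨_, hT.fixedPoint_isFixedPt⟩
  have hfx : ∀ x, f x = e x + ∫ y, k y * f (x - y) := by
    intro x
    conv_lhs => rw [← hf]
    rfl
  refine ⟨f, ‖f‖, f.continuous, ?_, hb f, hfx⟩
  have key : ∀ n : ℕ, ∀ x : ℝ, x ≤ 0 → |f x| ≤ ‖f‖ * (1 / 2) ^ n := by
    intro n
    induction n with
    | zero => intro x _; simpa using hb f x
    | succ n ih =>
      intro x hx
      rw [hfx x, hec x hx, zero_add]
      refine (cv_bound hk x (M := ‖f‖ * (1 / 2) ^ n) ?_).trans ?_
      · intro y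
        rcases le_or_gt y 0 with hy | hy
        · rw [hkc y hy]; simp
        · exact mul_le_mul_of_nonneg_left (ih _ (by linarith)) (abs_nonneg _)
      · have : (0 : ℝ) ≤ ‖f‖ * (1 / 2) ^ n := by positivity
        calc (∫ y, |k y|) * (‖f‖ * (1 / 2) ^ n) ≤ 1 / 2 * (‖f‖ * (1 / 2) ^ n) :=
              mul_le_mul_of_nonneg_right hk2 this
          _ = ‖f‖ * (1 / 2) ^ (n + 1) := by ring
  intro x hx
  have hlim : Tendsto (fun n : ℕ => ‖f‖ * (1 / 2 : ℝ) ^ n) atTop (𝓝 (‖f‖ * 0)) :=
    (tendsto_pow_atTop_nhds_zero_of_lt_one (by norm_num) (by norm_num)).const_mul _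
  rw [mul_zero] at hlim
  have h0 : |f x| ≤ 0 := ge_of_tendsto' hlim fun n => key n x hx
  exact abs_eq_zero.mp (le_antisymm h0 (abs_nonneg _))

theorem s_vol : S_VOL := by
  intro e k A b he hk hec hkc heA hkA
  have hA : 0 ≤ A := by
    have := heA 0
    simp only [mul_zero, Real.exp_zero, mul_one] at this
    exact (abs_nonneg _).trans this
  set c : ℝ := 2 * A + 1 with hc
  have hcpos : 0 < c := by positivity
  set b' : ℝ := b + c with hb'
  have hexp : ∀ (g : ℝ → ℝ), Csl g → (∀ x, |g x| ≤ A * Real.exp (b * x)) → ∀ x,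
      |Real.exp (-b' * x) * g x| ≤ (Ioi (0 : ℝ)).indicator (fun y => A * Real.exp (-c * y)) x := by
    intro g hg hgA x
    by_cases hx : x ∈ Ioi (0 : ℝ)
    · rw [indicator_of_mem hx, abs_mul, abs_of_pos (Real.exp_pos _)]
      calc Real.exp (-b' * x) * |g x| ≤ Real.exp (-b' * x) * (A * Real.exp (b * x)) :=
            mul_le_mul_of_nonneg_left (hgA x) (Real.exp_pos _).le
        _ = A * (Real.exp (-b' * x) * Real.exp (b * x)) := by ring
        _ = A * Real.exp (-c * x) := by rw [← Real.exp_add]; congr 2; rw [hb']; ring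
    · rw [indicator_of_notMem hx, hg x (not_lt.mp hx)]; simp
  have hint : Integrable ((Ioi (0 : ℝ)).indicator (fun y => A * Real.exp (-c * y))) := by
    rw [integrable_indicator_iff measurableSet_Ioi]
    exact (integrableOn_exp_mul_Ioi (by linarith) 0).const_mul A
  have hval : ∫ y, (Ioi (0 : ℝ)).indicator (fun y => A * Real.exp (-c * y)) y = A / c := by
    rw [integral_indicator measurableSet_Ioi, integral_const_mul,
      integral_exp_mul_Ioi (by linarith) 0]
    field_simp
    simp
  have hek : Continuous fun x => Real.exp (-b' * x) := by fun_prop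
  have hki : Integrable fun x => Real.exp (-b' * x) * k x :=
    hint.mono' (hek.mul hk).aestronglyMeasurable (Eventually.of_forall (hexp k hkc hkA))
  have hk2 : ∫ y, |Real.exp (-b' * y) * k y| ≤ 1 / 2 := by
    calc ∫ y, |Real.exp (-b' * y) * k y|
        ≤ ∫ y, (Ioi (0 : ℝ)).indicator (fun y => A * Real.exp (-c * y)) y :=
          integral_mono hki.abs hint (hexp k hkc hkA)
      _ = A / c := hval
      _ ≤ 1 / 2 := by rw [div_le_iff₀ hcpos, hc]; linarith
  have heB : ∀ x, |Real.exp (-b' * x) * e x| ≤ A := by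
    intro x
    refine (hexp e hec heA x).trans ?_
    by_cases hx : x ∈ Ioi (0 : ℝ)
    · rw [indicator_of_mem hx]
      have : Real.exp (-c * x) ≤ 1 := by
        rw [Real.exp_le_one_iff]
        have : 0 < c * x := mul_pos hcpos hx
        linarith
      nlinarith
    · rw [indicator_of_notMem hx]; exact hA
  obtain ⟨f, M, hfc, hf0, hfM, hfx⟩ := small (hek.mul he) hki
    (fun x hx => by simp [hec x hx]) (fun x hx => by simp [hkc x hx]) heB hk2
  refine ⟨fun x => Real.exp (b' * x) * f x, M, b', by fun_prop, ?_, ?_, ?_⟩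
  · intro x hx
    simp [hf0 x hx]
  · intro x
    rw [abs_mul, abs_of_pos (Real.exp_pos _), mul_comm]
    exact mul_le_mul_of_nonneg_right (hfM x) (Real.exp_pos _).le
  · intro x
    have h1 : Real.exp (b' * x) * Real.exp (-b' * x) = 1 := by
      rw [← Real.exp_add]; simp
    simp only [cv]
    have h3 : f x = Real.exp (-b' * x) * e x + ∫ y, Real.exp (-b' * y) * k y * f (x - y) := hfx x
    rw [h3, mul_add, ← mul_assoc, h1, one_mul, ← integral_const_mul]
    congr 1
    refine integral_congr_ae (Eventually.of_forall fun y => ?_)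
    simp only
    have h2 : Real.exp (b' * x) * Real.exp (-b' * y) = Real.exp (b' * (x - y)) := by
      rw [← Real.exp_add]; congr 1; ring
    rw [← h2]
    ring

end Pool.Agent.W923.DO
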